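import Pool.Agent.Y845.TQ.LcCore

/-!
# Project TQ: the leading constant of the main term, the limit
-/

set_option autoImplicit false

namespace Pool.Agent.Y845.TQ

open Filter Topology

/-- the Euler product of the zeta function on the real axis (as in `Y122/TQ/Zeta.lean`) -/
lemma zeta_hasProd {δ : ℝ} (hδ : 0 < δ) :
    HasProd (fun p : Nat.Primes => (1 - (p : ℝ) ^ (-(1 + 2 * δ)))⁻¹)
        (riemannZeta (1 + 2 * δ : ℝ)).re ∧
      0 < (riemannZeta (1 + 2 * δ : ℝ)).re := by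
  have hs : 1 < ((1 + 2 * δ : ℝ) : ℂ).re := by rw [Complex.ofReal_re]; linarith
  have h1 := riemannZeta_eulerProduct_hasProd hs
  have e1 : ∀ p : Nat.Primes, (1 - (p : ℂ) ^ (-((1 + 2 * δ : ℝ) : ℂ)))⁻¹ =
      (((1 - (p : ℝ) ^ (-(1 + 2 * δ)))⁻¹ : ℝ) : ℂ) := by
    intro p
    rw [show ((p : ℂ) ^ (-((1 + 2 * δ : ℝ) : ℂ))) = (((p : ℝ) ^ (-(1 + 2 * δ)) : ℝ) : ℂ) by
      rw [Complex.ofReal_cpow (by positivity)]; push_cast; rfl]
    push_cast; rfl
  simp_rw [e1] at h1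
  have him : (riemannZeta ((1 + 2 * δ : ℝ) : ℂ)).im = 0 := by
    have h2 : Tendsto (fun s : Finset Nat.Primes =>
        (∏ p ∈ s, (((1 - (p : ℝ) ^ (-(1 + 2 * δ)))⁻¹ : ℝ) : ℂ)).im)
        (SummationFilter.unconditional Nat.Primes).filter
        (𝓝 (riemannZeta ((1 + 2 * δ : ℝ) : ℂ)).im) :=
      (Complex.continuous_im.tendsto _).comp h1
    have h3 : (fun s : Finset Nat.Primes =>
        (∏ p ∈ s, (((1 - (p : ℝ) ^ (-(1 + 2 * δ)))⁻¹ : ℝ) : ℂ)).im) = fun _ => 0 := by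
      funext s
      rw [← Complex.ofReal_prod, Complex.ofReal_im]
    rw [h3] at h2
    exact (tendsto_nhds_unique h2 tendsto_const_nhds)
  have h4 : HasProd (fun p : Nat.Primes => (1 - (p : ℝ) ^ (-(1 + 2 * δ)))⁻¹)
      (riemannZeta (1 + 2 * δ : ℝ)).re := by
    have h2 : Tendsto (fun s : Finset Nat.Primes =>
        (∏ p ∈ s, (((1 - (p : ℝ) ^ (-(1 + 2 * δ)))⁻¹ : ℝ) : ℂ)).re)
        (SummationFilter.unconditional Nat.Primes).filter
        (𝓝 (riemannZeta ((1 + 2 * δ : ℝ) : ℂ)).re) :=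
      (Complex.continuous_re.tendsto _).comp h1
    have h3 : (fun s : Finset Nat.Primes =>
        (∏ p ∈ s, (((1 - (p : ℝ) ^ (-(1 + 2 * δ)))⁻¹ : ℝ) : ℂ)).re) =
        fun s : Finset Nat.Primes => ∏ p ∈ s, (1 - (p : ℝ) ^ (-(1 + 2 * δ)))⁻¹ := by
      funext s
      rw [← Complex.ofReal_prod, Complex.ofReal_re]
    rw [h3] at h2
    exact h2
  refine ⟨h4, ?_⟩
  have hne : riemannZeta ((1 + 2 * δ : ℝ) : ℂ) ≠ 0 := riemannZeta_ne_zero_of_one_le_re hs.le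
  have hre : (riemannZeta ((1 + 2 * δ : ℝ) : ℂ)).re ≠ 0 := by
    intro h
    exact hne (Complex.ext h him)
  refine lt_of_le_of_ne ?_ (Ne.symm hre)
  refine ge_of_tendsto' h4 fun s => Finset.prod_nonneg fun p _ => ?_
  have hp : (1:ℝ) < p := by exact_mod_cast p.2.one_lt
  have : (p : ℝ) ^ (-(1 + 2 * δ)) ≤ 1 := Real.rpow_le_one_of_one_le_of_nonpos hp.le (by linarith)
  exact inv_nonneg.mpr (by linarith)

lemma zeta_lim : Tendsto (fun δ : ℝ => 2 * δ * (riemannZeta (1 + 2 * δ : ℝ)).re) (𝓝[>] 0) (𝓝 1) := by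
  have h1 : Tendsto (fun δ : ℝ => ((1 + 2 * δ : ℝ) : ℂ)) (𝓝[>] 0) (𝓝[≠] 1) := by
    refine tendsto_nhdsWithin_iff.2 ⟨?_, ?_⟩
    · have h2 : Tendsto (fun δ : ℝ => ((1 + 2 * δ : ℝ) : ℂ)) (𝓝 0) (𝓝 ((1 + 2 * (0 : ℝ) : ℝ) : ℂ)) :=
        (Complex.continuous_ofReal.comp (by fun_prop)).tendsto _
      simp only [mul_zero, add_zero, Complex.ofReal_one] at h2
      exact h2.mono_left nhdsWithin_le_nhds
    · filter_upwards [self_mem_nhdsWithin] with δ hδ
      intro h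
      have h3 := congrArg Complex.re h
      rw [Complex.ofReal_re, Complex.one_re] at h3
      have : (0 : ℝ) < δ := hδ
      linarith
  have h2 := (Complex.continuous_re.tendsto _).comp (riemannZeta_residue_one.comp h1)
  rw [Complex.one_re] at h2
  refine h2.congr fun δ => ?_
  simp only [Function.comp]
  have h3 : ((1 + 2 * δ : ℝ) : ℂ) - 1 = ((2 * δ : ℝ) : ℂ) := by
    push_cast
    ring
  rw [h3, Complex.re_ofReal_mul]

theorem core (β : ℝ) (M : ℝ → ℝ)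
    (hM : ∀ δ, 0 < δ → HasProd (fun p : Nat.Primes => lf β δ p) (M δ)) :
    0 < ∏' p : Nat.Primes, GG β 0 p ∧ Multipliable (fun p : Nat.Primes => GG β 0 p) ∧
    Tendsto (fun δ => (2 * δ) ^ (β * (β + 1) / 2) * M δ) (𝓝[>] 0)
      (𝓝 (∏' p : Nat.Primes, GG β 0 p)) := by
  have h0 := GG_hasProd β 0 le_rfl
  rw [h0.tprod_eq]
  refine ⟨Real.exp_pos _, h0.multipliable, ?_⟩
  set K : ℝ := β * (β + 1) / 2 with hK
  have h1 : Tendsto (fun δ : ℝ => (2 * δ * (riemannZeta (1 + 2 * δ : ℝ)).re) ^ K *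
      Real.exp (∑' p : Nat.Primes, Real.log (GG β δ p))) (𝓝[>] 0)
      (𝓝 (1 ^ K * Real.exp (∑' p : Nat.Primes, Real.log (GG β 0 p)))) := by
    refine Tendsto.mul ?_ (GG_lim β)
    exact (Real.continuousAt_rpow_const 1 K (Or.inl one_ne_zero)).tendsto.comp zeta_lim
  rw [Real.one_rpow, one_mul] at h1
  refine h1.congr' ?_
  filter_upwards [self_mem_nhdsWithin] with δ hδ
  have hδ0 : 0 < δ := hδ
  obtain ⟨z1, z2⟩ := zeta_hasProd hδ0
  set Z := (riemannZeta (1 + 2 * δ : ℝ)).re with hZ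
  have h2 : HasProd (fun p : Nat.Primes => (1 - (p : ℝ) ^ (-(1 + 2 * δ))) ^ K) (Z ^ (-K)) := by
    have h3 : Tendsto (fun s : Finset Nat.Primes =>
        (∏ p ∈ s, (1 - (p : ℝ) ^ (-(1 + 2 * δ)))⁻¹) ^ (-K))
        (SummationFilter.unconditional Nat.Primes).filter (𝓝 (Z ^ (-K))) :=
      (Real.continuousAt_rpow_const Z (-K) (Or.inl z2.ne')).tendsto.comp z1
    refine h3.congr fun s => ?_
    rw [← Real.finsetProd_rpow]
    · refine Finset.prod_congr rfl fun p _ => ?_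
      have hp : (1:ℝ) < p := by exact_mod_cast p.2.one_lt
      have h4 : (p : ℝ) ^ (-(1 + 2 * δ)) ≤ 1 :=
        Real.rpow_le_one_of_one_le_of_nonpos hp.le (by linarith)
      rw [Real.inv_rpow (by linarith), Real.rpow_neg (by linarith), inv_inv]
    · intro p _
      have hp : (1:ℝ) < p := by exact_mod_cast p.2.one_lt
      have h4 : (p : ℝ) ^ (-(1 + 2 * δ)) ≤ 1 :=
        Real.rpow_le_one_of_one_le_of_nonpos hp.le (by linarith)
      exact inv_nonneg.2 (by linarith)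
  have h3 := (h2.mul (hM δ hδ0)).unique (GG_hasProd β δ hδ0.le)
  rw [← h3, Real.mul_rpow (by positivity) z2.le, Real.rpow_neg z2.le]
  have h4 : Z ^ K ≠ 0 := (Real.rpow_pos_of_pos z2 K).ne'
  field_simp

end Pool.Agent.Y845.TQ
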