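import Pool.Agent.Y122.TQ.Defs3
import Pool.Agent.Y845.TQ.LcLim

/-!
# Project TQ: the leading constant of the main term
-/

set_option autoImplicit false

namespace Pool.Agent.Y845.TQ

open Pool.Agent.Y122.TQ

lemma GG_zero (β : ℝ) : (fun p : Nat.Primes => GG β 0 p) =
    fun p : Nat.Primes => (1 - 1 / (p : ℝ)) ^ (β * (β + 1) / 2) * lfac β 0 p := by
  funext p
  have h1 : (p : ℝ) ^ (-(1 + 2 * (0 : ℝ))) = 1 / (p : ℝ) := by
    rw [mul_zero, add_zero, Real.rpow_neg_one, one_div]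
  have h2 : lf β 0 p = lfac β 0 p := rfl
  unfold GG
  rw [h1, h2]

theorem LC (h : S_EP) : S_LC := by
  intro β
  obtain ⟨h1, h2, h3⟩ := core β (fun δ => lfac β δ 2 * MT β δ) (fun δ hδ => h β δ hδ)
  have h4 : aC β = ∏' p : Nat.Primes, GG β 0 p := by
    unfold aC
    rw [GG_zero]
  rw [h4, ← GG_zero]
  exact ⟨h2, h1, h3⟩

end Pool.Agent.Y845.TQ
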