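import Mathlib

/-!
# Project TQ: the local factors near the central point
-/

set_option autoImplicit false

namespace Pool.Agent.Y845.TQ

open Filter Topology

lemma choose_two (a : ℝ) : Ring.choose a 2 = a * (a - 1) / 2 := by
  have h1 := Ring.descPochhammer_eq_factorial_smul_choose a 2
  rw [← Polynomial.aeval_eq_smeval] at h1
  simp [descPochhammer_succ_right, Nat.factorial] at h1
  linarith

/-- the binomial series to the third order -/
lemma binom (a : ℝ) : ∃ C : ℝ, 0 < C ∧ ∀ z : ℝ, |z| ≤ 3 / 4 →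
    |(1 + z) ^ a - (1 + a * z + a * (a - 1) / 2 * z ^ 2)| ≤ C * |z| ^ 3 := by
  have hf := Real.one_add_rpow_hasFPowerSeriesOnBall_zero (a := a)
  obtain ⟨q, hq, C, hC, h⟩ := hf.uniform_geometric_approx' (r' := 7 / 8) (by
    rw [ENNReal.coe_lt_one_iff, ← NNReal.coe_lt_coe]
    push_cast
    norm_num)
  refine ⟨C * (q / (7 / 8)) ^ 3, by have := hq.1; positivity, fun z hz => ?_⟩
  have h1 := h z (by rw [mem_ball_zero_iff, Real.norm_eq_abs]; push_cast; linarith) 3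
  have h2 : (binomialSeries ℝ a).partialSum 3 z = 1 + a * z + a * (a - 1) / 2 * z ^ 2 := by
    simp only [FormalMultilinearSeries.partialSum, Finset.sum_range_succ, Finset.sum_range_zero,
      binomialSeries_apply, List.ofFn_const, List.prod_replicate, smul_eq_mul,
      Ring.choose_zero_right, Ring.choose_one_right, choose_two]
    ring
  rw [h2, zero_add, Real.norm_eq_abs, Real.norm_eq_abs] at h1
  refine h1.trans (le_of_eq ?_)
  push_cast
  ring

/-- the even part -/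
noncomputable def A (β x : ℝ) : ℝ := ((1 - x) ^ (-β) + (1 + x) ^ (-β)) / 2

lemma A_bound (β : ℝ) : ∃ C : ℝ, 0 < C ∧ ∀ x : ℝ, 0 ≤ x → x ≤ 3 / 4 →
    |A β x - 1 - β * (β + 1) / 2 * x ^ 2| ≤ C * x ^ 3 := by
  obtain ⟨C, hC, h⟩ := binom (-β)
  refine ⟨C, hC, fun x hx0 hx => ?_⟩
  have h1 := h x (by rwa [abs_of_nonneg hx0])
  have h2 := h (-x) (by rwa [abs_neg, abs_of_nonneg hx0])
  rw [abs_neg, abs_of_nonneg hx0, ← sub_eq_add_neg] at h2
  rw [abs_of_nonneg hx0] at h1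
  rw [abs_le] at h1 h2 ⊢
  unfold A
  constructor <;> nlinarith [h1.1, h1.2, h2.1, h2.2]

lemma A_ge (β x : ℝ) (hx0 : 0 ≤ x) (hx : x ≤ 3 / 4) : 1 / 2 ≤ A β x := by
  unfold A
  have h1 : 0 ≤ (1 - x) ^ (-β) := Real.rpow_nonneg (by linarith) _
  have h2 : 0 ≤ (1 + x) ^ (-β) := Real.rpow_nonneg (by linarith) _
  rcases le_total 0 β with hβ | hβ
  · have h3 : 1 ≤ (1 - x) ^ (-β) :=
      Real.one_le_rpow_of_pos_of_le_one_of_nonpos (by linarith) (by linarith) (by linarith)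
    linarith
  · have h3 : 1 ≤ (1 + x) ^ (-β) := Real.one_le_rpow (by linarith) (by linarith)
    linarith

lemma log_err {y : ℝ} (hy : -1 < y) : |Real.log (1 + y) - y| ≤ y ^ 2 / (1 + y) := by
  have h0 : 0 < 1 + y := by linarith
  have h1 := Real.log_le_sub_one_of_pos h0
  have h2 := Real.one_sub_inv_le_log_of_pos h0
  have h3 : 1 - (1 + y)⁻¹ = y - y ^ 2 / (1 + y) := by
    field_simp
    ring
  rw [h3] at h2
  have h4 : 0 ≤ y ^ 2 / (1 + y) := by positivity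
  rw [abs_le]
  constructor <;> linarith

/-- the logarithm of the local factor -/
lemma loc_bound (β : ℝ) : ∃ C : ℝ, 0 < C ∧ ∀ x u w : ℝ, 0 < x → x ≤ w → w ≤ 3 / 4 → u = w ^ 2 →
    |β * (β + 1) / 2 * Real.log (1 - x ^ 2) + Real.log ((1 + u)⁻¹ * (A β x + u))| ≤ C * w ^ 3 := by
  obtain ⟨C, hC, h⟩ := A_bound β
  set K : ℝ := β * (β + 1) / 2 with hK
  refine ⟨2 * |K| + C + (|K| + C) + 2 * (|K| + C) ^ 2, by positivity,
    fun x u w hx0 hxw hw hu => ?_⟩
  have hx1 : x ≤ 3 / 4 := hxw.trans hw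
  have hw0 : 0 < w := hx0.trans_le hxw
  have hu0 : 0 < u := by rw [hu]; positivity
  have hA1 := h x hx0.le hx1
  have hA2 := A_ge β x hx0.le hx1
  have hx2 : x ^ 2 ≤ 9 / 16 := by nlinarith
  have hx2w : x ^ 2 ≤ w ^ 2 := by gcongr
  have hx3w : x ^ 3 ≤ w ^ 3 := by gcongr
  have hx4w : x ^ 4 ≤ w ^ 3 := by
    calc x ^ 4 = x * x ^ 3 := by ring
      _ ≤ 1 * w ^ 3 := by gcongr; linarith
      _ = w ^ 3 := one_mul _
  have hxu : x ^ 2 * u ≤ w ^ 3 := by
    rw [hu]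
    calc x ^ 2 * w ^ 2 ≤ w ^ 2 * w ^ 2 := by gcongr
      _ = w * w ^ 3 := by ring
      _ ≤ 1 * w ^ 3 := by gcongr; linarith
      _ = w ^ 3 := one_mul _
  -- the first logarithm
  have e1 : |Real.log (1 - x ^ 2) + x ^ 2| ≤ 16 / 7 * x ^ 4 := by
    have h1 := log_err (y := -x ^ 2) (by linarith)
    rw [show (1 : ℝ) + -x ^ 2 = 1 - x ^ 2 by ring, sub_neg_eq_add] at h1
    refine h1.trans ?_
    rw [div_le_iff₀ (by linarith)]
    nlinarith [sq_nonneg (x ^ 2), mul_nonneg (sq_nonneg (x ^ 2)) (sub_nonneg.2 hx2)]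
  -- the second logarithm
  have hAK : |A β x - 1| ≤ (|K| + C) * x ^ 2 := by
    have h1 : |A β x - 1| ≤ |A β x - 1 - K * x ^ 2| + |K * x ^ 2| := by
      have := abs_add_le (A β x - 1 - K * x ^ 2) (K * x ^ 2)
      rwa [sub_add_cancel] at this
    have h2 : |K * x ^ 2| = |K| * x ^ 2 := by rw [abs_mul, abs_of_nonneg (sq_nonneg x)]
    have h3 : x ^ 3 ≤ x ^ 2 := by
      calc x ^ 3 = x * x ^ 2 := by ring
        _ ≤ 1 * x ^ 2 := by gcongr; linarith
        _ = x ^ 2 := one_mul _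
    calc |A β x - 1| ≤ C * x ^ 3 + |K| * x ^ 2 := by rw [← h2]; linarith
      _ ≤ C * x ^ 2 + |K| * x ^ 2 := by gcongr
      _ = _ := by ring
  set y : ℝ := (A β x - 1) / (1 + u) with hy
  have hy1 : (1 + u)⁻¹ * (A β x + u) = 1 + y := by
    rw [hy]
    field_simp
    ring
  have hy2 : 1 / 2 ≤ 1 + y := by
    rw [← hy1, inv_mul_eq_div, le_div_iff₀ (by linarith)]
    linarith
  have hyabs : |y| ≤ (|K| + C) * x ^ 2 := by
    rw [hy, abs_div, abs_of_pos (show 0 < 1 + u by linarith)]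
    refine (div_le_self (abs_nonneg _) (by linarith)).trans hAK
  have e2 : |Real.log (1 + y) - y| ≤ 2 * (|K| + C) ^ 2 * x ^ 4 := by
    refine (log_err (by linarith)).trans ?_
    rw [div_le_iff₀ (by linarith)]
    have h1 : y ^ 2 ≤ ((|K| + C) * x ^ 2) ^ 2 := by
      rw [← sq_abs y]
      gcongr
    have h2 : 0 ≤ ((|K| + C) * x ^ 2) ^ 2 := by positivity
    calc y ^ 2 ≤ ((|K| + C) * x ^ 2) ^ 2 := h1
      _ = 2 * (|K| + C) ^ 2 * x ^ 4 * (1 / 2) := by ring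
      _ ≤ 2 * (|K| + C) ^ 2 * x ^ 4 * (1 + y) := by gcongr
  have e3 : |y - (A β x - 1)| ≤ (|K| + C) * (x ^ 2 * u) := by
    have h1 : y - (A β x - 1) = -((A β x - 1) * (u / (1 + u))) := by
      rw [hy]
      field_simp
      ring
    have h2 : u / (1 + u) ≤ u := div_le_self hu0.le (by linarith)
    rw [h1, abs_neg, abs_mul, abs_of_nonneg (show 0 ≤ u / (1 + u) by positivity)]
    calc |A β x - 1| * (u / (1 + u)) ≤ ((|K| + C) * x ^ 2) * u := by gcongr
      _ = _ := by ring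
  rw [hy1]
  have e4 : K * Real.log (1 - x ^ 2) + Real.log (1 + y) =
      K * (Real.log (1 - x ^ 2) + x ^ 2) + (Real.log (1 + y) - y) + (y - (A β x - 1)) +
        (A β x - 1 - K * x ^ 2) := by ring
  rw [e4]
  have t1 := abs_add_le (K * (Real.log (1 - x ^ 2) + x ^ 2) + (Real.log (1 + y) - y) +
    (y - (A β x - 1))) (A β x - 1 - K * x ^ 2)
  have t2 := abs_add_le (K * (Real.log (1 - x ^ 2) + x ^ 2) + (Real.log (1 + y) - y))
    (y - (A β x - 1))
  have t3 := abs_add_le (K * (Real.log (1 - x ^ 2) + x ^ 2)) (Real.log (1 + y) - y)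
  have t4 : |K * (Real.log (1 - x ^ 2) + x ^ 2)| ≤ |K| * (16 / 7 * x ^ 4) := by
    rw [abs_mul]
    gcongr
  have k1 : |K| * (16 / 7 * x ^ 4) ≤ |K| * (16 / 7 * (3 / 4 * w ^ 3)) := by
    have : x ^ 4 ≤ 3 / 4 * w ^ 3 := by
      calc x ^ 4 = x * x ^ 3 := by ring
        _ ≤ 3 / 4 * w ^ 3 := by gcongr
    gcongr
  have k2 : 2 * (|K| + C) ^ 2 * x ^ 4 ≤ 2 * (|K| + C) ^ 2 * w ^ 3 := by gcongr
  have k3 : (|K| + C) * (x ^ 2 * u) ≤ (|K| + C) * w ^ 3 := by gcongr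
  have k4 : C * x ^ 3 ≤ C * w ^ 3 := by gcongr
  have k5 : 0 ≤ |K| * w ^ 3 := by positivity
  linarith [t1, t2, t3, t4, k1, k2, k3, k4, k5, e2, e3, hA1]

end Pool.Agent.Y845.TQ
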