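import Pool.Agent.Y845.TQ.LcBin

/-!
# Project TQ: the leading constant of the main term
-/

set_option autoImplicit false

namespace Pool.Agent.Y845.TQ

open Filter Topology

/-- the Euler factor -/
noncomputable def lf (β δ : ℝ) (p : ℕ) : ℝ :=
  (1 + 1 / (p : ℝ))⁻¹ * (((1 - (p : ℝ) ^ (-(1 / 2 + δ))) ^ (-β) +
    (1 + (p : ℝ) ^ (-(1 / 2 + δ))) ^ (-β)) / 2 + 1 / p)

/-- the regularised factor -/
noncomputable def GG (β δ : ℝ) (p : ℕ) : ℝ :=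
  (1 - (p : ℝ) ^ (-(1 + 2 * δ))) ^ (β * (β + 1) / 2) * lf β δ p

lemma sq_eq {p : ℝ} (hp : 0 < p) (δ : ℝ) : p ^ (-(1 + 2 * δ)) = (p ^ (-(1 / 2 + δ))) ^ 2 := by
  rw [← Real.rpow_natCast, ← Real.rpow_mul hp.le]
  congr 1
  push_cast
  ring

lemma w_le {p : ℝ} (hp : 2 ≤ p) : p ^ (-(1 / 2 : ℝ)) ≤ 3 / 4 := by
  have hp0 : 0 < p := by linarith
  have h1 : (p ^ (-(1 / 2 : ℝ))) ^ 2 = p⁻¹ := by
    rw [← Real.rpow_natCast, ← Real.rpow_mul hp0.le, ← Real.rpow_neg_one]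
    congr 1
    norm_num
  have h2 : p⁻¹ ≤ 1 / 2 := by
    rw [inv_le_comm₀ hp0 (by norm_num)]
    norm_num
    exact hp
  refine abs_le_of_sq_le_sq' ?_ (by norm_num) |>.2
  rw [h1]
  linarith

lemma x_facts {p δ : ℝ} (hp : 2 ≤ p) (hδ : 0 ≤ δ) : 0 < p ^ (-(1 / 2 + δ)) ∧
    p ^ (-(1 / 2 + δ)) ≤ p ^ (-(1 / 2 : ℝ)) ∧ p ^ (-(1 / 2 : ℝ)) ≤ 3 / 4 ∧
    1 / p = (p ^ (-(1 / 2 : ℝ))) ^ 2 := by
  have hp0 : 0 < p := by linarith
  refine ⟨Real.rpow_pos_of_pos hp0 _, Real.rpow_le_rpow_of_exponent_le (by linarith)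
    (by linarith), w_le hp, ?_⟩
  rw [← Real.rpow_natCast, ← Real.rpow_mul hp0.le, one_div, ← Real.rpow_neg_one]
  congr 1
  norm_num

lemma GG_eq (β δ : ℝ) (p : ℕ) (hp : 2 ≤ p) (hδ : 0 ≤ δ) :
    0 < lf β δ p ∧ 0 < GG β δ p ∧ Real.log (GG β δ p) =
      β * (β + 1) / 2 * Real.log (1 - ((p : ℝ) ^ (-(1 / 2 + δ))) ^ 2) +
        Real.log ((1 + 1 / (p : ℝ))⁻¹ * (A β ((p : ℝ) ^ (-(1 / 2 + δ))) + 1 / p)) := by
  have hp' : (2 : ℝ) ≤ p := by exact_mod_cast hp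
  obtain ⟨h1, h2, h3, h4⟩ := x_facts hp' hδ
  have h5 := A_ge β _ h1.le (h2.trans h3)
  have h6 : lf β δ p = (1 + 1 / (p : ℝ))⁻¹ * (A β ((p : ℝ) ^ (-(1 / 2 + δ))) + 1 / p) := rfl
  have h7 : 0 < lf β δ p := by
    rw [h6]
    positivity
  have h8 : 0 < 1 - ((p : ℝ) ^ (-(1 / 2 + δ))) ^ 2 := by
    have := h2.trans h3
    nlinarith
  refine ⟨h7, ?_, ?_⟩
  · unfold GG
    rw [sq_eq (by linarith)]
    positivity
  · unfold GG
    rw [sq_eq (by linarith), Real.log_mul (by positivity) h7.ne', Real.log_rpow h8, h6]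

lemma GG_bound (β : ℝ) : ∃ C : ℝ, 0 < C ∧ ∀ (δ : ℝ) (p : ℕ), 0 ≤ δ → 2 ≤ p →
    |Real.log (GG β δ p)| ≤ C * (p : ℝ) ^ (-(3 / 2 : ℝ)) := by
  obtain ⟨C, hC, h⟩ := loc_bound β
  refine ⟨C, hC, fun δ p hδ hp => ?_⟩
  have hp' : (2 : ℝ) ≤ p := by exact_mod_cast hp
  obtain ⟨h1, h2, h3, h4⟩ := x_facts hp' hδ
  rw [(GG_eq β δ p hp hδ).2.2]
  refine (h _ _ _ h1 h2 h3 h4).trans (le_of_eq ?_)
  congr 1
  rw [← Real.rpow_natCast, ← Real.rpow_mul (by linarith)]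
  congr 1
  norm_num

lemma GG_summable (β δ : ℝ) (hδ : 0 ≤ δ) :
    Summable (fun p : Nat.Primes => Real.log (GG β δ p)) := by
  obtain ⟨C, hC, h⟩ := GG_bound β
  refine Summable.of_norm_bounded (g := fun p : Nat.Primes => C * (p : ℝ) ^ (-(3 / 2 : ℝ)))
    ((Nat.Primes.summable_rpow.2 (by norm_num)).mul_left C) fun p => ?_
  exact h δ p hδ p.2.two_le

lemma GG_hasProd (β δ : ℝ) (hδ : 0 ≤ δ) : HasProd (fun p : Nat.Primes => GG β δ p)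
    (Real.exp (∑' p : Nat.Primes, Real.log (GG β δ p))) := by
  have h1 := (GG_summable β δ hδ).hasSum.rexp
  refine h1.congr_fun ?_
  intro p
  simp only [Function.comp]
  rw [Real.exp_log (GG_eq β δ p p.2.two_le hδ).2.1]

lemma GG_cont (β : ℝ) (p : ℕ) (hp : 2 ≤ p) :
    Tendsto (fun δ : ℝ => Real.log (GG β δ p)) (𝓝[>] 0) (𝓝 (Real.log (GG β 0 p))) := by
  have hp' : (2 : ℝ) ≤ p := by exact_mod_cast hp
  have hp0 : (p : ℝ) ≠ 0 := by linarith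
  obtain ⟨h1, h2, h3, h4⟩ := x_facts hp' (le_refl (0 : ℝ))
  have hG := (GG_eq β 0 p hp le_rfl).2.1
  have c1 : ContinuousAt (fun δ : ℝ => (p : ℝ) ^ (-(1 / 2 + δ))) 0 :=
    ContinuousAt.rpow continuousAt_const (by fun_prop) (Or.inl hp0)
  have c2 : ContinuousAt (fun δ : ℝ => (p : ℝ) ^ (-(1 + 2 * δ))) 0 :=
    ContinuousAt.rpow continuousAt_const (by fun_prop) (Or.inl hp0)
  have n2 : (1 : ℝ) - (p : ℝ) ^ (-(1 + 2 * (0 : ℝ))) ≠ 0 := by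
    rw [sq_eq (by linarith)]
    have := h2.trans h3
    nlinarith
  have n1 : (1 : ℝ) - (p : ℝ) ^ (-(1 / 2 + (0 : ℝ))) ≠ 0 := by
    have := h2.trans h3
    intro h
    linarith
  have n3 : (1 : ℝ) + (p : ℝ) ^ (-(1 / 2 + (0 : ℝ))) ≠ 0 := by positivity
  have c3 : ContinuousAt (fun δ : ℝ => GG β δ p) 0 := by
    unfold GG lf
    refine ContinuousAt.mul ?_ (ContinuousAt.mul continuousAt_const ?_)
    · exact ContinuousAt.rpow_const (continuousAt_const.sub c2) (Or.inl n2)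
    · refine ContinuousAt.add (ContinuousAt.div_const (ContinuousAt.add ?_ ?_) _)
        continuousAt_const
      · exact ContinuousAt.rpow_const (continuousAt_const.sub c1) (Or.inl n1)
      · exact ContinuousAt.rpow_const (continuousAt_const.add c1) (Or.inl n3)
  exact ((c3.log hG.ne').tendsto).mono_left nhdsWithin_le_nhds

lemma GG_lim (β : ℝ) : Tendsto (fun δ : ℝ => Real.exp (∑' p : Nat.Primes, Real.log (GG β δ p)))
    (𝓝[>] 0) (𝓝 (Real.exp (∑' p : Nat.Primes, Real.log (GG β 0 p)))) := by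
  refine (Real.continuous_exp.tendsto _).comp ?_
  obtain ⟨C, hC, h⟩ := GG_bound β
  refine tendsto_tsum_of_dominated_convergence
    (bound := fun p : Nat.Primes => C * (p : ℝ) ^ (-(3 / 2 : ℝ)))
    ((Nat.Primes.summable_rpow.2 (by norm_num)).mul_left C) ?_ ?_
  · intro p
    exact GG_cont β p p.2.two_le
  · filter_upwards [self_mem_nhdsWithin] with δ hδ p
    exact h δ p (le_of_lt hδ) p.2.two_le

end Pool.Agent.Y845.TQ
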